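import Pool.Agent.Helper48.LY.Cone
import Pool.Agent.Helper48.IF.Main

set_option autoImplicit false
set_option linter.unusedSectionVars false

/-! # The certificates of a Lê–Yomdin singularity -/

namespace Pool.Agent.Helper48.LY

open Finset MvPolynomial Pool.Agent.H628R4.TP Pool.Agent.K3h38.SM Pool.Agent.Helper48.SN
  Pool.Agent.Helper48.SW Pool.Agent.Helper48.TC

variable {n : ℕ}

theorem centred_zero (f : MvPolynomial (Fin (n + 1)) ℂ) : centred 0 f = f := by
  rw [centred]
  have h1 : (fun i => X i + C ((0 : Fin (n + 1) → ℂ) i) :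
      Fin (n + 1) → MvPolynomial (Fin (n + 1)) ℂ) = X := by
    funext i
    rw [Pi.zero_apply, C_0, add_zero]
  rw [h1, aeval_X_left, AlgHom.id_apply]

/-- the translation -/
noncomputable def trE (p : Fin (n + 1) → ℂ) :
    MvPolynomial (Fin (n + 1)) ℂ ≃ₐ[ℂ] MvPolynomial (Fin (n + 1)) ℂ :=
  AlgEquiv.ofAlgHom (aeval fun i => X i + C (p i)) (aeval fun i => X i + C (-p i))
    (by
      refine MvPolynomial.algHom_ext fun i => ?_
      rw [AlgHom.comp_apply, aeval_X, map_add, aeval_X, AlgHom.id_apply]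
      have h : ∀ c : ℂ, (aeval (fun i => X i + C (p i)) : MvPolynomial (Fin (n + 1)) ℂ →ₐ[ℂ]
        MvPolynomial (Fin (n + 1)) ℂ) (C c) = C c := fun c => aeval_C _ _
      rw [h, map_neg]
      ring)
    (by
      refine MvPolynomial.algHom_ext fun i => ?_
      rw [AlgHom.comp_apply, aeval_X, map_add, aeval_X, AlgHom.id_apply]
      have h : ∀ c : ℂ, (aeval (fun i => X i + C (-p i)) : MvPolynomial (Fin (n + 1)) ℂ →ₐ[ℂ]
        MvPolynomial (Fin (n + 1)) ℂ) (C c) = C c := fun c => aeval_C _ _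
      rw [h, map_neg]
      ring)

theorem trE_apply (p : Fin (n + 1) → ℂ) (f : MvPolynomial (Fin (n + 1)) ℂ) :
    trE p f = centred p f := rfl

/-- **The certificate over a singular point of the tangent cone.** -/
theorem fromChart_EP (hn : 1 ≤ n) (f : MvPolynomial (Fin (n + 1)) ℂ) (p : Fin (n + 1) → ℂ)
    (d k : ℕ) (hf : Gap (centred p f) d k)
    (q : Fin (n + 1) → ℂ) (a : Fin n → ℕ) (e : ℕ) (h : MvPolynomial (Fin n) ℂ)
    (hq : SingPt (homogeneousComponent d (centred p f)) q)
    (h2 : eval q (homogeneousComponent (d + k) (centred p f)) ≠ 0)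
    (hQ : SemiQHChart (homogeneousComponent d (centred p f)) q a e h)
    (hlam' : NoResidue d k a e) :
    FromChart f p ((d + k) * e) (k * ∑ i, a i + (n + 1) * e) := by
  obtain ⟨hd, hk, hf0, hf1⟩ := hf
  obtain ⟨⟨ha, he, hh, hcrit⟩, ξ, ⟨hξq, hdet⟩, -, hξ⟩ := hQ
  have hlam : ∀ l : ℕ, d * (k * ∑ i, a i + (n + 1) * e) + l * ((d + k) * e) ≠
      n * ((d + k) * e) := by
    intro l hl
    refine hlam' (l + 1) (by omega) ?_
    rw [add_mul l, ← add_assoc, hl]
    ring
  have hcq : (fun j => MvPowerSeries.constantCoeff (ξ j)) = q := funext hξq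
  set c : ℂ := eval (fun j => MvPowerSeries.constantCoeff (ξ j))
    (homogeneousComponent (d + k) (centred p f)) with hcd
  have hc : c ≠ 0 := by rw [hcd, hcq]; exact h2
  have hsing : ∀ j, eval (fun j => MvPowerSeries.constantCoeff (ξ j))
      (pderiv j (homogeneousComponent d (centred p f))) = 0 := by rw [hcq]; exact hq.2
  set D : ℂ := MvPowerSeries.constantCoeff (smat ξ).det with hDd
  have hD : D ≠ 0 := by rw [hDd, det_smat ξ q hξq]; exact hdet
  have hgrad0 : ∀ i, eval 0 (pderiv i h) = 0 := by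
    intro i
    have h1 := pp_aeval' ξ i (homogeneousComponent d (centred p f))
    have h2 := congrArg MvPowerSeries.constantCoeff h1
    rw [map_sum, Finset.sum_eq_zero fun j _ => by rw [map_mul, const_aeval, hsing j, zero_mul]]
      at h2
    rw [← MvPowerSeries.coeff_zero_eq_constantCoeff_apply, pp_apply, MvPowerSeries.coeff_pderiv,
      zero_add, Finsupp.coe_zero, Pi.zero_apply, Nat.cast_zero, zero_add, mul_one] at h2
    rw [eval_zero, constantCoeff_eq, coeff_pderiv, zero_add, Finsupp.coe_zero, Pi.zero_apply,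
      Nat.cast_zero, zero_add, mul_one]
    by_contra h3
    have h4 := hh h3
    rw [← hξ _ h4.le] at h3
    exact h3 h2
  have hh0 : eval 0 h = 0 := by
    rw [eval_zero, constantCoeff_eq]
    by_contra h1
    have h2 := hh h1
    rw [map_zero] at h2
    omega
  have hsv : ∑ i, vZ a k e i = k * ∑ i, a i + e := by
    rw [Fin.sum_univ_castSucc, vZ, Fin.lastCases_last, Finset.mul_sum]
    congr 1
    exact Finset.sum_congr rfl fun i _ => by rw [vZ, Fin.lastCases_castSucc]
  have h1 : ∑ i, ![n, 0] i * ![e, k * e] i = n * e := by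
    rw [Fin.sum_univ_two]
    change n * e + 0 * (k * e) = _
    ring
  have h3 : ∑ i, ![d, 1] i * ![e, k * e] i = (d + k) * e := by
    rw [Fin.sum_univ_two]
    change d * e + 1 * (k * e) = _
    ring
  have hζ : ∀ g : MvPolynomial (Fin (n + 1)) ℂ,
      (aeval (fun j => chZ ξ j + MvPowerSeries.C (p j)) g : PS (Fin (n + 1))) =
        aeval (chZ ξ) (centred p g) := by
    intro g
    have h4 : (aeval (fun j => chZ ξ j + MvPowerSeries.C (p j)) :
        MvPolynomial (Fin (n + 1)) ℂ →ₐ[ℂ] PS (Fin (n + 1))) =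
          (aeval (chZ ξ)).comp (aeval fun i => X i + C (p i)) := by
      refine MvPolynomial.algHom_ext fun i => ?_
      rw [AlgHom.comp_apply, aeval_X, aeval_X, map_add, aeval_X, aeval_C]
      rfl
    exact congrArg (fun F : MvPolynomial (Fin (n + 1)) ℂ →ₐ[ℂ] PS (Fin (n + 1)) => F g) h4
  have hjac : (Matrix.of fun j i => MvPowerSeries.pderiv ℂ i (chZ ξ j + MvPowerSeries.C (p j)) :
      Matrix (Fin (n + 1)) (Fin (n + 1)) (PS (Fin (n + 1)))) = jacS (chZ ξ) := by
    ext1 j i
    rw [Matrix.of_apply, map_add]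
    have h4 : MvPowerSeries.pderiv ℂ i (MvPowerSeries.C (p j) : PS (Fin (n + 1))) = 0 :=
      (MvPowerSeries.pderiv ℂ i).map_algebraMap (p j)
    rw [h4, add_zero]
    rfl
  refine ⟨by omega, fun j => chZ ξ j + MvPowerSeries.C (p j), vZ a k e, D, Fin 2, inferInstance,
    FZ h c k, ![e, k * e], ![d, 1], ![n, 0], fun j => ?_, fun i => ?_, fun i => ?_, fun i => ?_,
    fun i => ?_, snc_FZ h c hc k hcrit hh0, dep_FZ h c k hgrad0, hD, ?_, ?_, ?_, ?_, fun i l => ?_⟩
  · rw [map_add, chZ, map_mul, MvPowerSeries.constantCoeff_X, zero_mul, zero_add,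
      MvPowerSeries.constantCoeff_C]
  · refine Fin.lastCases ?_ (fun i => ?_) i
    · rw [vZ, Fin.lastCases_last]
      exact he
    · rw [vZ, Fin.lastCases_castSucc]
      exact Nat.mul_pos hk (ha i)
  · have h4 : IsWeightedHomogeneous (vZ a k e) (X (Fin.last n) : MvPolynomial (Fin (n + 1)) ℂ)
        e := by
      have h5 := isWeightedHomogeneous_X ℂ (vZ a k e) (Fin.last n)
      rwa [vZ, Fin.lastCases_last] at h5
    fin_cases i
    · exact h4
    · refine IsWeightedHomogeneous.add (hom_rename_Z a k e e h hh) ?_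
      have h5 := (h4.pow k).C_mul c
      rwa [smul_eq_mul] at h5
  · fin_cases i
    · exact he
    · exact Nat.mul_pos hk he
  · fin_cases i
    · exact hd
    · exact le_rfl
  · rw [hζ, Fin.sum_univ_two, Fin.prod_univ_two]
    exact init_f ξ (centred p f) d k hk hf0 hf1 a ha e he h hh hξ c (const_aeval ξ _)
  · rw [hjac, Fin.sum_univ_two, Fin.prod_univ_two]
    exact init_J ξ a ha k e hk h c D rfl
  · rw [h3]
  · rw [hsv, h1]
    ring
  · fin_cases i
    · exact hlam l
    · change 1 * (k * ∑ i, a i + (n + 1) * e) + l * ((d + k) * e) ≠ 0 * ((d + k) * e)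
      rw [zero_mul]
      have : 0 < (n + 1) * e := Nat.mul_pos (by omega) he
      omega

end Pool.Agent.Helper48.LY
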