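import Pool.Agent.Helper48.LY.Old
import Pool.Agent.Helper48.TC.Loc
import Pool.Agent.Helper48.TC.Glob
import Pool.Agent.Helper48.TC.Red
import Pool.Agent.Helper48.TC.EP

set_option autoImplicit false
set_option linter.unusedSectionVars false

/-! # Cones over hypersurfaces with quasi-homogeneous singular points -/

namespace Pool.Agent.Helper48.LY

open Finset MvPolynomial Pool.Agent.H628R4.TP Pool.Agent.K3h38.SM Pool.Agent.Helper48.SN
  Pool.Agent.Helper48.SW Pool.Agent.Helper48.TC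

variable {n : ℕ}

theorem det_smat (ξ : Fin (n + 1) → PS (Fin n)) (q : Fin (n + 1) → ℂ)
    (hq : ∀ j, MvPowerSeries.constantCoeff (ξ j) = q j) :
    MvPowerSeries.constantCoeff (smat ξ).det = (Matrix.of fun j i => (Fin.lastCases (q j)
        (fun i => MvPowerSeries.coeff (Finsupp.single i 1) (ξ j)) i : ℂ)).det := by
  rw [RingHom.map_det]
  congr 1
  ext j i
  rw [RingHom.mapMatrix_apply, Matrix.map_apply, Matrix.of_apply]
  refine Fin.lastCases ?_ (fun i => ?_) i
  · rw [smat_last, Fin.lastCases_last, hq]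
  · rw [smat_succ, Fin.lastCases_castSucc, ← MvPowerSeries.coeff_zero_eq_constantCoeff_apply,
      pp_apply, MvPowerSeries.coeff_pderiv, zero_add, Finsupp.coe_zero, Pi.zero_apply,
      Nat.cast_zero, zero_add, mul_one]

/-- **Cones over hypersurfaces with quasi-homogeneous singular points.** -/
theorem nonexact_cone (φ : MvPolynomial (Fin (n + 1)) ℂ) (d : ℕ) (h : QHCone φ d) :
    Pool.Agent.Helper48.IF.NonexactForm (fun _ : Fin (n + 1) => 1) d φ := by
  classical
  obtain ⟨hd, hφ, ⟨S, hS⟩, hQ, hL⟩ := h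
  refine nonexact_of_KV (Nat.succ_pos n) φ d hd hφ (fun k c Θ hk hΘ h1 h2 => ?_)
    (fun Θ c hΘ h1 h2 => ?_)
  · refine KV_global (fun i => pderiv i φ) (J := {p : S // (p : Fin (n + 1) → ℂ) ≠ 0})
      (fun p => (p.1 : Fin (n + 1) → ℂ)) (fun p => p.2) (fun q hq0 hq => ?_) Θ h1
      (fun q hq0 hq => ?_)
    · obtain ⟨p, hp, t, ht⟩ := hS q ⟨hq0, hq⟩
      refine ⟨⟨⟨p, hp⟩, fun h3 => ?_⟩, t, ht⟩
      apply hq0
      rw [ht]
      have h4 : p = 0 := h3
      rw [h4, smul_zero]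
    · obtain ⟨a, e, g, ⟨⟨ha, he, hg, hcrit⟩, ξ, ⟨hξq, hdet⟩, hξ⟩, hNR⟩ := hQ q ⟨hq0, hq⟩
      refine local_KV φ d hφ ξ q hξq (by rw [det_smat ξ q hξq]; exact hdet) a ha e he g hg hcrit
        hξ k hk c Θ hΘ h1 h2 (fun r hr g' hg' => ?_)
      refine hNR k r hk ?_ g' hg'
      have h3 : (r + ∑ i, a i) * d = d * (∑ i, a i + r) := by ring
      have h4 : (n + 1 + d * k) * e = (d * k + (n + 1)) * e := by ring
      rw [h3, h4, hr]
  · have h3 := hL Θ hΘ h1
    rw [h3] at h2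
    exact (C_eq_zero.1 h2.symm)

/-- `f_d` is squarefree, in a weak form -/
theorem no_square_cone (hn : 2 ≤ n) (φ : MvPolynomial (Fin (n + 1)) ℂ) (hS : FinSing φ)
    (P G : MvPolynomial (Fin (n + 1)) ℂ) (e : ℕ) (he : 0 < e) (hP : P.IsHomogeneous e)
    (hφ : φ = P * P * G) : False := by
  classical
  obtain ⟨S, hS⟩ := hS
  obtain ⟨c, hc0, hc⟩ := exists_hyper (J := {p : S // (p : Fin (n + 1) → ℂ) ≠ 0})
      (fun p => (p.1 : Fin (n + 1) → ℂ)) (fun p => p.2)
  have hres : (res c P).IsHomogeneous e := by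
    have h1 := hP.aeval (fun i => (Fin.cons (-C (c 0)⁻¹ * ∑ l : Fin n, C (c l.succ) * X l)
      (fun l => X l) : Fin (n + 1) → MvPolynomial (Fin n) ℂ) i) (n := 1) (fun i => by
        refine Fin.cases ?_ (fun l => ?_) i
        · rw [Fin.cons_zero, ← map_neg]
          refine IsHomogeneous.C_mul (IsHomogeneous.sum _ _ _ fun l _ => ?_) _
          exact (isHomogeneous_X ℂ l).C_mul _
        · rw [Fin.cons_succ]
          exact isHomogeneous_X ℂ l)
    rwa [one_mul] at h1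
  obtain ⟨y, hy0, hy⟩ := exists_zero_w hn (fun _ => 1) (fun _ => one_pos) (res c P) e he hres
  obtain ⟨x, hx, hxs, hxl⟩ := eval_res c hc0 y
  rw [hx] at hy
  have hx0 : x ≠ 0 := by
    intro h2
    apply hy0
    funext l
    rw [← hxs l, h2]
    rfl
  obtain ⟨p, hp, t, ht⟩ := hS x ⟨hx0, fun j => by
    rw [hφ, pderiv_mul, pderiv_mul]
    simp only [map_add, map_mul, hy, mul_zero, zero_mul, add_zero]⟩
  have hp0 : p ≠ 0 := by
    intro h3
    apply hx0
    rw [ht, h3, smul_zero]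
  have h3 : t * ∑ i, c i * p i = 0 := by
    rw [← hxl, ht, Finset.mul_sum]
    refine Finset.sum_congr rfl fun i _ => ?_
    rw [Pi.smul_apply, smul_eq_mul]
    ring
  rcases mul_eq_zero.1 h3 with h4 | h4
  · apply hx0
    rw [ht, h4, zero_smul]
  · exact hc ⟨⟨p, hp⟩, hp0⟩ h4

end Pool.Agent.Helper48.LY
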