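import Pool.Agent.Helper48.IF.Defs
import Pool.Agent.Helper16.WM.Top

set_option autoImplicit false

/-! # Lê–Yomdin singularities and divisors in formal charts

The definitions used in `Pool.Agent.Results.MP_a2a574_ag.LeYomdin`. -/

namespace Pool.Agent.Helper48.LY

open MvPolynomial Pool.Agent.H628R4.TP Pool.Agent.Helper48.IF Pool.Agent.Helper16.WM

section Charts

/-- `φ` is the weighted initial form of the power series `g`, and its weight is `d`: `φ` is weighted
homogeneous of weight `d`, and `g - φ` has only monomials of weight `> d`. -/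
def IsInit {σ : Type} (w : σ → ℕ) (g : MvPowerSeries σ ℂ) (d : ℕ) (φ : MvPolynomial σ ℂ) : Prop :=
  IsWeightedHomogeneous w φ d ∧
    ∀ α : σ →₀ ℕ, Finsupp.weight w α ≤ d → MvPowerSeries.coeff α g = coeff α φ

/-- The numbers `(m, ν)` come from a point of a modification over the point `p`: in formal coordinates
`y_1, ..., y_c`, `c ≥ 2`, the modification is `x = ξ(y)`, `ξ(0) = p`; for the weights `v_i > 0` of the `y_i`
the weighted initial forms of `f(ξ(y))` and of `det(∂ξ/∂y)` are `∏ F_i ^ n_i` and `a ∏ F_i ^ μ_i`, where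
`n_i ≥ 1`, `μ_i ≥ 0`, `a ≠ 0`, and the weighted homogeneous polynomials `F_i` have normal crossings outside
the origin, but not at the origin; `m = ∑ n_i e_i` and `ν = ∑ v_i + ∑ μ_i e_i`, where `e_i > 0` is the weight
of `F_i`. So `(m, ν)` are the numerical data of the exceptional divisor of the weighted blow-up of the
point `y = 0` (if the `v_i` have no common divisor). The last condition is that no residue number
`1 + μ_i - n_i ν / m` is a positive integer. -/
def FromChart {c : ℕ} (f : MvPolynomial (Fin c) ℂ) (p : Fin c → ℂ) (m ν : ℕ) : Prop :=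
  2 ≤ c ∧ ∃ (ξ : Fin c → MvPowerSeries (Fin c) ℂ) (v : Fin c → ℕ) (a : ℂ) (ι : Type)
    (_ : Fintype ι) (F : ι → MvPolynomial (Fin c) ℂ) (e n μ : ι → ℕ),
    (∀ j, MvPowerSeries.constantCoeff (ξ j) = p j) ∧ (∀ i, 0 < v i) ∧
    (∀ i, IsWeightedHomogeneous v (F i) (e i)) ∧ (∀ i, 0 < e i) ∧ (∀ i, 1 ≤ n i) ∧
    NormalCrossing F ∧ DependentLinearParts F ∧ a ≠ 0 ∧
    IsInit v (aeval ξ f) (∑ i, n i * e i) (∏ i, F i ^ n i) ∧
    IsInit v (Matrix.of fun j i => MvPowerSeries.pderiv ℂ i (ξ j)).det (∑ i, μ i * e i)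
      (C a * ∏ i, F i ^ μ i) ∧
    m = ∑ i, n i * e i ∧ ν = ∑ i, v i + ∑ i, μ i * e i ∧
    ∀ (i : ι) (l : ℕ), n i * ν + l * m ≠ μ i * m

/-- `(m, ν)`, `ν ≥ 1`, is, up to a common factor, the pair of the numerical data of the strict transform of
a prime factor of `f` or of a divisor which comes from a non-exact initial form of `f` at some point
(`IF.GlobalDatum`), or it comes from a point of a modification (`FromChart`). -/
def GlobalDatum {c : ℕ} (f : MvPolynomial (Fin c) ℂ) (m ν : ℕ) : Prop :=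
  1 ≤ ν ∧ ∃ m' ν' : ℕ, 1 ≤ m' ∧ ν * m' = m * ν' ∧
    (IF.GlobalDatum f m' ν' ∨ ∃ p, FromChart f p m' ν')

/-- The same, locally at the origin: the prime factor vanishes at `0`, and the points are not contained in
a hypersurface `H = 0` with `H(0) ≠ 0`. -/
def LocalDatum {c : ℕ} (f : MvPolynomial (Fin c) ℂ) (m ν : ℕ) : Prop :=
  1 ≤ ν ∧ ∃ m' ν' : ℕ, 1 ≤ m' ∧ ν * m' = m * ν' ∧
    (IF.LocalDatum f m' ν' ∨
      ∀ H : MvPolynomial (Fin c) ℂ, eval 0 H ≠ 0 → ∃ p, eval p H ≠ 0 ∧ FromChart f p m' ν')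

/-- **The strong monodromy conjecture** for the zeta functions computed from divisors with the numerical
data `Nν i = (N_i, ν_i)`: the candidate poles `-ν_i/N_i` are roots of `b`, all the poles of all sums of the
shape of the motivic zeta function are roots of `b` (`IF.Conjecture`), and so are all the poles of all
sums `∑_I χ_I ∏_{i ∈ I} 1 / (N_i s + ν_i)`, `χ_I ∈ ℂ[s]`, of the shape of the topological zeta function. -/
def StrongConjecture {S : Type} [Fintype S] (Nν : S → ℕ × ℕ) (b : Polynomial ℂ) : Prop :=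
  IF.Conjecture Nν b ∧
    ∀ (χ : Finset S → Polynomial ℂ) (s₀ : ℂ), (topZ Nν χ).denom.eval s₀ = 0 → b.eval s₀ = 0

end Charts

section Cones

variable {n : ℕ}

/-- the polynomial `f` in the coordinates centred at the point `p`, i.e. `f(x + p)` -/
noncomputable def centred (p : Fin (n + 1) → ℂ) (f : MvPolynomial (Fin (n + 1)) ℂ) :
    MvPolynomial (Fin (n + 1)) ℂ :=
  aeval (fun i => X i + C (p i)) f

/-- `h(y)` is weighted homogeneous of degree `e > 0` for the weights `a_i > 0`, and its gradient vanishes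
at most at the origin. -/
def QHPoly (a : Fin n → ℕ) (e : ℕ) (h : MvPolynomial (Fin n) ℂ) : Prop :=
  (∀ i, 0 < a i) ∧ 0 < e ∧ IsWeightedHomogeneous a h e ∧
    ∀ y : Fin n → ℂ, (∀ i, eval y (pderiv i h) = 0) → y = 0

end Cones

end Pool.Agent.Helper48.LY
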