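import Pool.Agent.Helper48.LY.Cert

set_option autoImplicit false
set_option linter.unusedSectionVars false

/-! # Lê–Yomdin singularities: the proofs of the statements -/

namespace Pool.Agent.Helper48.LY

open Finset MvPolynomial Pool.Agent.H628R4.TP Pool.Agent.K3h38.SM Pool.Agent.Helper48.SN
  Pool.Agent.Helper48.SW Pool.Agent.Helper48.TC Pool.Agent.Helper16.WM

theorem root_chart {c : ℕ} (f H : MvPolynomial (Fin c) ℂ) (p : Fin c → ℂ) (m ν : ℕ)
    (h : FromChart f p m ν) (b : Polynomial ℂ) (hb : FEq f H b) (hH : eval p H ≠ 0) :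
    b.eval (-(ν : ℂ) / m) = 0 := by
  obtain ⟨hc, ξ, v, a, ι, _, F, e, n, μ, hξ, hv, hF, he, hn, hS, hli, ha, hψ, hJ, rfl, rfl,
    hlam⟩ := h
  have h3 : (fun j => MvPowerSeries.constantCoeff (ξ j)) = p := funext hξ
  exact chart_root hc ξ v hv f H b hb (by rw [h3]; exact hH) a ha F e n μ hF he hn hS hli hlam
    hψ hJ

theorem ratio (ν m x y : ℕ) (hm : m ≠ 0) (hy : y ≠ 0) (h : ν * y = m * x) :
    -(ν : ℂ) / m = -(x : ℂ) / y := by
  have hmC : (m : ℂ) ≠ 0 := by exact_mod_cast hm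
  have hyC : (y : ℂ) ≠ 0 := by exact_mod_cast hy
  rw [div_eq_div_iff hmC hyC]
  have h1 : (ν : ℂ) * y = m * x := by exact_mod_cast h
  linear_combination -h1

theorem strong_of {S : Type} [Fintype S] (Nν : S → ℕ × ℕ) (b : Polynomial ℂ)
    (hν : ∀ i, 1 ≤ (Nν i).2)
    (h : ∀ i, 1 ≤ (Nν i).1 → b.eval (-((Nν i).2 : ℂ) / (Nν i).1) = 0) : StrongConjecture Nν b := by
  refine ⟨IF.conjecture_of Nν b hν h, fun χ s₀ hs => ?_⟩
  obtain ⟨I, i, -, -, h1, rfl⟩ := pole_topZ Nν χ s₀ hs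
  exact h i h1

theorem t_chart {c : ℕ} (f : MvPolynomial (Fin c) ℂ) (p : Fin c → ℂ) (m ν : ℕ)
    (h : FromChart f p m ν) (b : Polynomial ℂ)
    (hb : IsBFunction f b ∨ (p = 0 ∧ f ≠ 0 ∧ IsLocalBFunction f b)) :
    b.eval (-(ν : ℂ) / m) = 0 := by
  rcases hb with hb | ⟨rfl, hf, hb⟩
  · exact root_chart f 1 p _ _ h b (feq_one f b hb) (by rw [map_one]; exact one_ne_zero)
  · obtain ⟨H, hH, hF⟩ := feq_local f hf b hb
    exact root_chart f H 0 _ _ h b hF hH

theorem t_global (N : ℕ) (f : MvPolynomial (Fin N) ℂ) (b : Polynomial ℂ) (hb : IsBFunction f b)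
    (S : Type) [Fintype S] (Nν : S → ℕ × ℕ) (h : ∀ i, GlobalDatum f (Nν i).1 (Nν i).2) :
    StrongConjecture Nν b := by
  refine strong_of Nν b (fun i => (h i).1) fun i hi => ?_
  obtain ⟨-, m', ν', hm', hr, h1⟩ := h i
  rw [ratio _ _ ν' m' (by omega) (by omega) hr]
  rcases h1 with h1 | ⟨p, h1⟩
  · exact IF.global_root f b hb _ _ hm' h1
  · exact root_chart f 1 p _ _ h1 b (feq_one f b hb) (by rw [map_one]; exact one_ne_zero)

theorem t_local (N : ℕ) (f : MvPolynomial (Fin N) ℂ) (hf : f ≠ 0) (b : Polynomial ℂ)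
    (hb : IsLocalBFunction f b) (S : Type) [Fintype S] (Nν : S → ℕ × ℕ)
    (h : ∀ i, LocalDatum f (Nν i).1 (Nν i).2) : StrongConjecture Nν b := by
  refine strong_of Nν b (fun i => (h i).1) fun i hi => ?_
  obtain ⟨-, m', ν', hm', hr, h1⟩ := h i
  rw [ratio _ _ ν' m' (by omega) (by omega) hr]
  rcases h1 with h1 | h1
  · exact IF.local_root f hf b hb _ _ hm' h1
  · obtain ⟨H, hH, hF⟩ := feq_local f hf b hb
    obtain ⟨p, hp, h2⟩ := h1 H hH
    exact root_chart f H p _ _ h2 b hF hp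

variable {n : ℕ}

theorem init_of_gap (f : MvPolynomial (Fin (n + 1)) ℂ) (d : ℕ)
    (h0 : ∀ l, l < d → homogeneousComponent l f = 0) :
    HasInit (fun _ => 1) f d (homogeneousComponent d f) := by
  refine ⟨homogeneousComponent_isHomogeneous d f, fun α hα => ?_⟩
  have h1 : Finsupp.weight (fun _ : Fin (n + 1) => 1) α = α.degree := by
    rw [weight_sum, Finsupp.degree_eq_sum]
    exact Finset.sum_congr rfl fun i _ => mul_one _
  rw [h1] at hα
  rw [coeff_homogeneousComponent]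
  split_ifs with h2
  · rfl
  · have h3 := congrArg (coeff α) (h0 α.degree (by omega))
    rwa [coeff_homogeneousComponent, if_pos rfl, coeff_zero] at h3

theorem cone_ne (hn : 2 ≤ n) (φ : MvPolynomial (Fin (n + 1)) ℂ) (hS : FinSing φ) : φ ≠ 0 := by
  intro h1
  exact no_square_cone hn _ hS (X 0) 0 1 one_pos (isHomogeneous_X ℂ 0) (by rw [h1, mul_zero])

/-- a simple prime factor at the origin -/
theorem simple_prime (hn : 2 ≤ n) (f : MvPolynomial (Fin (n + 1)) ℂ) (d : ℕ) (hd : 0 < d)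
    (h0 : ∀ l, l < d → homogeneousComponent l f = 0) (hS : FinSing (homogeneousComponent d f)) :
    ∃ p q, Prime p ∧ eval 0 p = 0 ∧ f = p ^ 1 * q ∧ ¬ p ∣ q := by
  classical
  have hfd : homogeneousComponent d f ≠ 0 := cone_ne hn _ hS
  have hf : f ≠ 0 := by
    rintro rfl
    exact hfd (map_zero _)
  have hf0 : eval 0 f = 0 := by
    rw [eval_zero, constantCoeff_eq]
    have h3 := congrArg (coeff 0) (h0 0 hd)
    rwa [coeff_homogeneousComponent, if_pos (by rw [map_zero]), coeff_zero] at h3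
  obtain ⟨p, hp, hp0, g, hg⟩ := exists_prime_factor f hf hf0
  refine ⟨p, g, hp, hp0, by rw [pow_one]; exact hg, ?_⟩
  rintro ⟨g', rfl⟩
  have hg0 : g' ≠ 0 := by
    rintro rfl
    exact hf (by rw [hg, mul_zero, mul_zero])
  obtain ⟨e, P, hP, hPi⟩ := exists_init (fun _ => 1) p hp.ne_zero
  obtain ⟨e', G, hG, hGi⟩ := exists_init (fun _ => 1) g' hg0
  have h1 := (hPi.mul hPi).mul hGi
  have h2 : p * p * g' = f := by rw [hg, mul_assoc]
  rw [h2] at h1
  have h3 := (h1.unique (init_of_gap f d h0)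
    (mul_ne_zero (mul_ne_zero hP hP) hG) hfd).2
  exact no_square_cone hn _ hS P G e (hPi.pos hP (fun _ => one_pos) hp0) hPi.1 h3.symm

theorem fromInit_pt (f : MvPolynomial (Fin (n + 1)) ℂ) (p : Fin (n + 1) → ℂ) (d : ℕ)
    (h0 : ∀ l, l < d → homogeneousComponent l (centred p f) = 0)
    (hQ : IF.NonexactForm (fun _ => 1) d (homogeneousComponent d (centred p f))) :
    IF.FromInitialForm f p d (n + 1) := by
  obtain ⟨c, k, w, Ψ, φ, hφ, hcone, hν⟩ := SW.from_init (fun _ => 1) d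
    (homogeneousComponent d (centred p f)) (centred p f) hQ (init_of_gap _ d h0)
  have h1 : tr 0 (centred p f) = centred p f := centred_zero _
  rw [h1] at hcone
  refine ⟨c, k, w, Ψ, φ, hφ, hcone, ?_⟩
  rw [← hν]
  simp

theorem t_cert (hn : 2 ≤ n) (f : MvPolynomial (Fin (n + 1)) ℂ) (p : Fin (n + 1) → ℂ) (d k : ℕ)
    (hf : LeYomdin (centred p f) d k)
    (hQ : IF.NonexactForm (fun _ => 1) d (homogeneousComponent d (centred p f)))
    (m ν : ℕ) (h : LYDatum (centred p f) d k m ν) :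
    GlobalDatum f m ν ∧ (p = 0 → LocalDatum f m ν) := by
  obtain ⟨hg, hfin, h2⟩ := hf
  have hg' := hg
  obtain ⟨hd, hk, h0, h1⟩ := hg'
  obtain ⟨hν, h | h | ⟨q, a, e, g, hq, hQC, hlam, h⟩⟩ := h
  · obtain ⟨π, r, hπ, hπ0, hfr, hπr⟩ := simple_prime hn (centred p f) d hd h0 hfin
    refine ⟨⟨hν, 1, 1, le_rfl, by rw [h], Or.inl (Or.inl ⟨rfl, (trE p).symm π, (trE p).symm r,
      ?_, ?_, ?_⟩)⟩, ?_⟩
    · exact (MulEquiv.prime_iff (trE p).symm.toMulEquiv).2 hπ
    · rw [← map_pow, ← map_mul, ← hfr, ← trE_apply, AlgEquiv.symm_apply_apply]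
    · intro h3
      apply hπr
      have h4 := map_dvd (trE p) h3
      rwa [AlgEquiv.apply_symm_apply, AlgEquiv.apply_symm_apply] at h4
    · rintro rfl
      rw [centred_zero] at hfr
      exact ⟨hν, 1, 1, le_rfl, by rw [h], Or.inl (Or.inl ⟨rfl, π, r, hπ, hπ0, hfr, hπr⟩)⟩
  · have h3 := fromInit_pt f p d h0 hQ
    refine ⟨⟨hν, d, n + 1, hd, h, Or.inl (Or.inr ⟨p, h3⟩)⟩, ?_⟩
    rintro rfl
    exact ⟨hν, d, n + 1, hd, h, Or.inl (Or.inr fun H hH => ⟨0, hH, h3⟩)⟩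
  · have h3 := fromChart_EP (by omega) f p d k hg q a e g hq (h2 q hq) hQC hlam
    have h4 : 1 ≤ (d + k) * e := Nat.mul_pos (by omega) hQC.1.2.1
    refine ⟨⟨hν, _, _, h4, h, Or.inr ⟨p, h3⟩⟩, ?_⟩
    rintro rfl
    exact ⟨hν, _, _, h4, h, Or.inr fun H hH => ⟨0, hH, h3⟩⟩

theorem t_LY (hn : 2 ≤ n) (f : MvPolynomial (Fin (n + 1)) ℂ) (d k : ℕ)
    (hf : LeYomdin f d k) (hQ : IF.NonexactForm (fun _ => 1) d (homogeneousComponent d f))
    (b : Polynomial ℂ)
    (hb : IsBFunction f b ∨ IsLocalBFunction f b) (S : Type) [Fintype S] (Nν : S → ℕ × ℕ)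
    (h : ∀ i, LYDatum f d k (Nν i).1 (Nν i).2) : StrongConjecture Nν b := by
  have hf0 : f ≠ 0 := by
    rintro rfl
    exact cone_ne hn _ hf.2.1 (map_zero _)
  have h1 : ∀ i, GlobalDatum f (Nν i).1 (Nν i).2 ∧ LocalDatum f (Nν i).1 (Nν i).2 := by
    intro i
    have h2 := t_cert hn f 0 d k (by rw [centred_zero]; exact hf) (by rw [centred_zero]; exact hQ)
      (Nν i).1 (Nν i).2 (by rw [centred_zero]; exact h i)
    exact ⟨h2.1, h2.2 rfl⟩
  rcases hb with hb | hb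
  · exact t_global _ f b hb S Nν fun i => (h1 i).1
  · exact t_local _ f hf0 b hb S Nν fun i => (h1 i).2

end Pool.Agent.Helper48.LY
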