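import Pool.Agent.Helper48.LY.Defs

set_option autoImplicit false

/-! # Lê–Yomdin singularities: the case of the weights `1` -/

namespace Pool.Agent.Helper48.LY

open MvPolynomial Pool.Agent.H628R4.TP Pool.Agent.Helper48.IF Pool.Agent.Helper16.WM

section Cones

variable {n : ℕ}

/-- `[q]` is a singular point of the hypersurface `φ = 0` in the projective space `ℙ^n`. -/
def SingPt (φ : MvPolynomial (Fin (n + 1)) ℂ) (q : Fin (n + 1) → ℂ) : Prop :=
  q ≠ 0 ∧ ∀ j, eval q (pderiv j φ) = 0

/-- `x = ξ(y)` are formal coordinates `y_1, ..., y_n` of `ℙ^n` at the point `[q]`: `ξ(0) = q`, and the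
vectors `q, ∂ξ/∂y_i(0)` are a basis. -/
def IsChart (q : Fin (n + 1) → ℂ) (ξ : Fin (n + 1) → MvPowerSeries (Fin n) ℂ) : Prop :=
  (∀ j, MvPowerSeries.constantCoeff (ξ j) = q j) ∧
    (Matrix.of fun j i => (Fin.lastCases (q j)
      (fun i => MvPowerSeries.coeff (Finsupp.single i 1) (ξ j)) i : ℂ)).det ≠ 0

/-- The singularity of the hypersurface `φ = 0` in `ℙ^n` at the point `[q]` is quasi-homogeneous with the
weights `a` and the degree `e`: in some formal coordinates its equation is `h(y) = 0`. -/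
def QHChart (φ : MvPolynomial (Fin (n + 1)) ℂ) (q : Fin (n + 1) → ℂ) (a : Fin n → ℕ) (e : ℕ)
    (h : MvPolynomial (Fin n) ℂ) : Prop :=
  QHPoly a e h ∧ ∃ ξ, IsChart q ξ ∧ (aeval ξ φ : MvPowerSeries (Fin n) ℂ) = h

/-- The singularity of the hypersurface `φ = 0` in `ℙ^n` at the point `[q]` is semi-quasi-homogeneous: in
some formal coordinates its equation is `h(y) + (terms of higher weight) = 0`. -/
def SemiQHChart (φ : MvPolynomial (Fin (n + 1)) ℂ) (q : Fin (n + 1) → ℂ) (a : Fin n → ℕ) (e : ℕ)
    (h : MvPolynomial (Fin n) ℂ) : Prop :=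
  QHPoly a e h ∧ ∃ ξ, IsChart q ξ ∧ IsInit a (aeval ξ φ : MvPowerSeries (Fin n) ℂ) e h

/-- For all integers `k ≥ 1`, `-(n+1)/d - k` is not one of the numbers `-(r + ∑ a_i)/e`, where `r` is the
weight of a nonzero element of the Milnor algebra `ℂ[y]/(∂h/∂y_1, ..., ∂h/∂y_n)`. (These numbers are the
roots of the reduced Bernstein–Sato polynomial of `h`.) -/
def NoResonance (d : ℕ) (a : Fin n → ℕ) (e : ℕ) (h : MvPolynomial (Fin n) ℂ) : Prop :=
  ∀ k r : ℕ, 1 ≤ k → (r + ∑ i, a i) * d = (n + 1 + d * k) * e →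
    ∀ g : MvPolynomial (Fin n) ℂ, IsWeightedHomogeneous a g r →
      g ∈ Ideal.span (Set.range fun i => pderiv i h)

/-- The hypersurface `φ = 0` in `ℙ^n` has finitely many singular points. -/
def FinSing (φ : MvPolynomial (Fin (n + 1)) ℂ) : Prop :=
  ∃ S : Finset (Fin (n + 1) → ℂ), ∀ q, SingPt φ q → ∃ p ∈ S, ∃ t : ℂ, q = t • p

/-- `φ` is a form of degree `d`; the hypersurface `φ = 0` in `ℙ^n` has finitely many singular points, all
quasi-homogeneous and without resonance, and all linear vector fields which annihilate `φ` have the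
divergence (the trace) `0`. -/
def QHCone (φ : MvPolynomial (Fin (n + 1)) ℂ) (d : ℕ) : Prop :=
  0 < d ∧ φ.IsHomogeneous d ∧ FinSing φ ∧
    (∀ q, SingPt φ q → ∃ a e h, QHChart φ q a e h ∧ NoResonance d a e h) ∧
    ∀ Θ : Fin (n + 1) → MvPolynomial (Fin (n + 1)) ℂ, (∀ i, (Θ i).IsHomogeneous 1) →
      ∑ i, Θ i * pderiv i φ = 0 → ∑ i, pderiv i (Θ i) = 0

/-- `f = f_d + f_(d+k) + ...` with forms `f_i` of degree `i`, where `d, k ≥ 1`. -/
def Gap (f : MvPolynomial (Fin (n + 1)) ℂ) (d k : ℕ) : Prop :=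
  0 < d ∧ 0 < k ∧ (∀ l, l < d → homogeneousComponent l f = 0) ∧
    ∀ l, d < l → l < d + k → homogeneousComponent l f = 0

/-- `f = f_d + f_(d+k) + ...` is a Lê–Yomdin singularity (for `k = 1`: a superisolated singularity): the
projective hypersurface `f_d = 0` has finitely many singular points, and `f_(d+k)` vanishes at none of
them. -/
def LeYomdin (f : MvPolynomial (Fin (n + 1)) ℂ) (d k : ℕ) : Prop :=
  Gap f d k ∧ FinSing (homogeneousComponent d f) ∧
    ∀ q, SingPt (homogeneousComponent d f) q → eval q (homogeneousComponent (d + k) f) ≠ 0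

/-- The residue number of the first exceptional divisor `(d, n+1)` with respect to the divisor
`((d+k) e, k |a| + (n+1) e)` is not a positive integer; it is `(n + 1) - d (k |a| + (n+1) e) / ((d+k) e)`. -/
def NoResidue (d k : ℕ) (a : Fin n → ℕ) (e : ℕ) : Prop :=
  ∀ l : ℕ, 1 ≤ l →
    (n + 1) * ((d + k) * e) ≠ d * (k * ∑ i, a i + (n + 1) * e) + l * ((d + k) * e)

/-- The numerical data of the divisors of the embedded resolution of a Lê–Yomdin singularity with
semi-quasi-homogeneous singular points of the tangent cone (one blow-up, and then a weighted blow-up at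
each of these points), up to common factors: `(1, 1)` for the strict transform, `(d, n+1)` for the first
exceptional divisor, and `((d+k) e, k |a| + (n+1) e)` for the divisor over a singular point with the
weights `a` and the degree `e`, which has to satisfy `NoResidue`. -/
def LYDatum (f : MvPolynomial (Fin (n + 1)) ℂ) (d k m ν : ℕ) : Prop :=
  1 ≤ ν ∧ (ν = m ∨ ν * d = m * (n + 1) ∨
    ∃ q a e h, SingPt (homogeneousComponent d f) q ∧
      SemiQHChart (homogeneousComponent d f) q a e h ∧ NoResidue d k a e ∧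
      ν * ((d + k) * e) = m * (k * ∑ i, a i + (n + 1) * e))

end Cones

end Pool.Agent.Helper48.LY
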